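import Pool.Agent.H648R3.SSP.Red

/-!
# Subset sum in finitely generated metabelian groups

For every finitely generated metabelian group that is not virtually nilpotent, and every finite
generating set, the subset sum problem is NP-complete.
-/

namespace Pool.Agent.Results.MP_521f94_lc.MetabelianNPComplete

open Pool.Agent.NPC Pool.Agent.NPC.SSP648 Pool.Agent.H648R3.SSP

/-- Let `G` be a group generated by `g 0, ..., g (n - 1)` whose commutator subgroup is
commutative, and suppose that no subgroup of finite index of `G` is nilpotent.  Then the subset sum
problem of `G` with respect to these generators is in `NP` and is `NP`-hard (under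
polynomial-time many-one reductions). -/
theorem result : ∀ (G : Type*) [Group G] (n : ℕ) (g : Fin n → G),
    Subgroup.closure (Set.range g) = ⊤ →
    (∀ a ∈ commutator G, ∀ b ∈ commutator G, a * b = b * a) →
    (¬ ∃ H : Subgroup G, H.FiniteIndex ∧ Group.IsNilpotent H) →
    InNPP (SubsetSum g) ∧ NPHardP (SubsetSum g) := by
  intro G _ n g hg hcomm hnot
  have : Metab G := ⟨hcomm⟩
  exact ⟨inNPP_subsetSum g, npHardP_subsetSum hg hnot⟩

end Pool.Agent.Results.MP_521f94_lc.MetabelianNPComplete
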